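import Pool.Agent.H4.CI2

set_option autoImplicit false

namespace Pool.Agent.Results.MP_49d20d_lc.Hard

open Pool.Agent.H11.PT Pool.Agent.H21.ER Pool.Agent.H4.CI

theorem result : ∃ f : Qf → ℕ × List (ℕ × ℕ) × List (ℕ × ℕ), PolyTime bits bits f ∧ ∀ φ, ETR φ ↔ CI (f φ) :=
  ⟨fun φ => red (DD φ) (HH φ), (red_pt.comp (g := fun φ => (DD φ, HH φ)) (by fun_prop)).polyTime, fun φ => by
    rw [HH_iff, red_iff (HH_bd φ) (by simp [DD])]⟩

end Pool.Agent.Results.MP_49d20d_lc.Hard
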